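import Mathlib

/-!
For every `s ≥ 24` there are complementary factors `G₁, G₂` of `K(s,s)`, without isolated
vertices, with `γ_t(G₁) γ_t(G₂) ≥ (⌊s/2⌋ + 2)(⌈s/2⌉ + 2) > 8 s`.
-/

namespace Pool.Agent.Results.MP_69ced1_co.LargeProduct

/-- `S` is a total dominating set of `G`: every vertex has a neighbour in `S`. -/
def IsTotalDominating {V : Type} (G : SimpleGraph V) (S : Finset V) : Prop :=
  ∀ v, ∃ w ∈ S, G.Adj v w

/-- The total domination number. -/
noncomputable def gammaT {V : Type} (G : SimpleGraph V) : ℕ :=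
  sInf {k | ∃ S : Finset V, IsTotalDominating G S ∧ S.card = k}

/-- `G` has no isolated vertex. -/
def NoIsolated {V : Type} (G : SimpleGraph V) : Prop := ∀ v, ∃ w, G.Adj v w

theorem le_gammaT {V : Type} [Fintype V] (G : SimpleGraph V) (hG : NoIsolated G) (m : ℕ)
    (h : ∀ S : Finset V, IsTotalDominating G S → m ≤ S.card) : m ≤ gammaT G := by
  have hne : {k | ∃ S : Finset V, IsTotalDominating G S ∧ S.card = k}.Nonempty :=
    ⟨_, Finset.univ, fun v => by
      obtain ⟨w, hw⟩ := hG v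
      exact ⟨w, Finset.mem_univ _, hw⟩, rfl⟩
  obtain ⟨S, hS, hk⟩ := Nat.sInf_mem hne
  have := h S hS
  unfold gammaT
  omega

/-- The bipartite graph given by a relation between `Fin s` and `Fin s`. -/
def bip {s : ℕ} (R : Fin s → Fin s → Prop) : SimpleGraph (Fin s ⊕ Fin s) where
  Adj x y := match x, y with
    | Sum.inl a, Sum.inr b => R a b
    | Sum.inr b, Sum.inl a => R a b
    | _, _ => False
  symm := ⟨by
    rintro (a | b) (a' | b') h
    · exact h
    · exact h
    · exact h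
    · exact h⟩
  loopless := ⟨by
    rintro (a | b) h
    · exact h
    · exact h⟩

/-- The relation of the first factor; `p` is the size of the first half. -/
def R1 (s p : ℕ) (a b : Fin s) : Prop :=
  (a.val < p ∧ a.val ≠ b.val % p) ∨ a.val = p + b.val % (s - p)

/-- The relation of the second factor. -/
def R2 (s p : ℕ) (a b : Fin s) : Prop :=
  a.val = b.val % p ∨ (p ≤ a.val ∧ a.val ≠ p + b.val % (s - p))

theorem R1_or_R2 (s p : ℕ) (a b : Fin s) : R1 s p a b ∨ R2 s p a b := by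
  unfold R1 R2
  omega

theorem R1_not_R2 (s p : ℕ) (hp : 0 < p) (a b : Fin s) (h1 : R1 s p a b) :
    ¬ R2 s p a b := by
  unfold R1 at h1
  unfold R2
  have := Nat.mod_lt b.val hp
  omega

section
variable {s p : ℕ} (hp : 2 ≤ p) (hps : p + 2 ≤ s)
include hp hps

theorem ex_mod_p (j : ℕ) (hj : j < p) : ∃ b : Fin s, b.val % p = j :=
  ⟨⟨j, by omega⟩, Nat.mod_eq_of_lt hj⟩

theorem ex_mod_q (j : ℕ) (hj : j < s - p) : ∃ b : Fin s, b.val % (s - p) = j :=
  ⟨⟨j, by omega⟩, Nat.mod_eq_of_lt hj⟩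

theorem ex_mod_p_ne (j : ℕ) : ∃ b : Fin s, b.val % p ≠ j := by
  by_cases h : j = 0
  · obtain ⟨b, hb⟩ := ex_mod_p hp hps 1 (by omega)
    exact ⟨b, by omega⟩
  · obtain ⟨b, hb⟩ := ex_mod_p hp hps 0 (by omega)
    exact ⟨b, by omega⟩

theorem ex_mod_q_ne (j : ℕ) : ∃ b : Fin s, b.val % (s - p) ≠ j := by
  by_cases h : j = 0
  · obtain ⟨b, hb⟩ := ex_mod_q hp hps 1 (by omega)
    exact ⟨b, by omega⟩
  · obtain ⟨b, hb⟩ := ex_mod_q hp hps 0 (by omega)
    exact ⟨b, by omega⟩

theorem noIso1 : NoIsolated (bip (R1 s p)) := by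
  rintro (a | b)
  · by_cases ha : a.val < p
    · obtain ⟨b, hb⟩ := ex_mod_p_ne hp hps a.val
      exact ⟨Sum.inr b, Or.inl ⟨ha, hb.symm⟩⟩
    · obtain ⟨b, hb⟩ := ex_mod_q hp hps (a.val - p) (by have := a.isLt; omega)
      exact ⟨Sum.inr b, Or.inr (by rw [hb]; omega)⟩
  · have := Nat.mod_lt b.val (show 0 < s - p by omega)
    exact ⟨Sum.inl ⟨p + b.val % (s - p), by omega⟩, Or.inr rfl⟩

theorem noIso2 : NoIsolated (bip (R2 s p)) := by
  rintro (a | b)
  · by_cases ha : a.val < p
    · obtain ⟨b, hb⟩ := ex_mod_p hp hps a.val ha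
      exact ⟨Sum.inr b, Or.inl hb.symm⟩
    · obtain ⟨b, hb⟩ := ex_mod_q_ne hp hps (a.val - p)
      exact ⟨Sum.inr b, Or.inr ⟨by omega, by omega⟩⟩
  · have := Nat.mod_lt b.val (show 0 < p by omega)
    exact ⟨Sum.inl ⟨b.val % p, by omega⟩, Or.inl rfl⟩

omit hp hps in
/-- The right part of `S`. -/
theorem card_split (S : Finset (Fin s ⊕ Fin s)) : S.card = S.toLeft.card + S.toRight.card :=
  S.card_toLeft_add_card_toRight.symm

theorem left_two (R : Fin s → Fin s → Prop) (hR : ∀ a, ∃ b, ¬ R a b)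
    (S : Finset (Fin s ⊕ Fin s)) (hS : IsTotalDominating (bip R) S) : 2 ≤ S.toLeft.card := by
  by_contra hc
  have hc' : S.toLeft.card ≤ 1 := by omega
  have hne : Nonempty (Fin s) := ⟨⟨0, by omega⟩⟩
  rw [Finset.card_le_one_iff_subset_singleton] at hc'
  obtain ⟨a, ha⟩ := hc'
  obtain ⟨b, hb⟩ := hR a
  obtain ⟨w, hw, hadj⟩ := hS (Sum.inr b)
  rcases w with a' | b'
  · have h1 : a' ∈ S.toLeft := Finset.mem_toLeft.mpr hw
    have h2 : a' = a := Finset.mem_singleton.mp (ha h1)
    subst h2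
    exact hb hadj
  · exact hadj

omit hp hps in
theorem right_ge (R : Fin s → Fin s → Prop) (g : Fin s → ℕ) (t : ℕ)
    (h : ∀ j < t, ∃ a : Fin s, ∀ b, R a b → g b = j)
    (S : Finset (Fin s ⊕ Fin s)) (hS : IsTotalDominating (bip R) S) : t ≤ S.toRight.card := by
  have hsub : Finset.range t ⊆ S.toRight.image g := by
    intro j hj
    obtain ⟨a, ha⟩ := h j (Finset.mem_range.mp hj)
    obtain ⟨w, hw, hadj⟩ := hS (Sum.inl a)
    rcases w with a' | b'
    · exact absurd hadj id
    · exact Finset.mem_image.mpr ⟨b', Finset.mem_toRight.mpr hw, ha b' hadj⟩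
  calc t = (Finset.range t).card := (Finset.card_range t).symm
    _ ≤ (S.toRight.image g).card := Finset.card_le_card hsub
    _ ≤ S.toRight.card := Finset.card_image_le

theorem gamma1 : (s - p) + 2 ≤ gammaT (bip (R1 s p)) := by
  apply le_gammaT _ (noIso1 hp hps)
  intro S hS
  rw [card_split S]
  have h1 : 2 ≤ S.toLeft.card := by
    apply left_two hp hps (R1 s p) _ S hS
    intro a
    by_cases ha : a.val < p
    · obtain ⟨b, hb⟩ := ex_mod_p hp hps a.val ha
      refine ⟨b, ?_⟩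
      unfold R1
      omega
    · obtain ⟨b, hb⟩ := ex_mod_q_ne hp hps (a.val - p)
      refine ⟨b, ?_⟩
      unfold R1
      omega
  have h2 : s - p ≤ S.toRight.card := by
    apply right_ge (R1 s p) (fun b => b.val % (s - p)) (s - p) _ S hS
    intro j hj
    refine ⟨⟨p + j, by omega⟩, ?_⟩
    intro b hb
    have hb' : (p + j < p ∧ p + j ≠ b.val % p) ∨ p + j = p + b.val % (s - p) := hb
    show b.val % (s - p) = j
    omega
  omega

theorem gamma2 : p + 2 ≤ gammaT (bip (R2 s p)) := by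
  apply le_gammaT _ (noIso2 hp hps)
  intro S hS
  rw [card_split S]
  have h1 : 2 ≤ S.toLeft.card := by
    apply left_two hp hps (R2 s p) _ S hS
    intro a
    by_cases ha : a.val < p
    · obtain ⟨b, hb⟩ := ex_mod_p_ne hp hps a.val
      refine ⟨b, ?_⟩
      unfold R2
      omega
    · obtain ⟨b, hb⟩ := ex_mod_q hp hps (a.val - p) (by have := a.isLt; omega)
      refine ⟨b, ?_⟩
      unfold R2
      have := Nat.mod_lt b.val (show 0 < p by omega)
      omega
  have h2 : p ≤ S.toRight.card := by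
    apply right_ge (R2 s p) (fun b => b.val % p) p _ S hS
    intro j hj
    refine ⟨⟨j, by omega⟩, ?_⟩
    intro b hb
    have hb' : j = b.val % p ∨ (p ≤ j ∧ j ≠ p + b.val % (s - p)) := hb
    show b.val % p = j
    omega
  omega

end

theorem result : ∀ s : ℕ, 24 ≤ s → ∃ G₁ G₂ : SimpleGraph (Fin s ⊕ Fin s),
    G₁ ⊔ G₂ = completeBipartiteGraph (Fin s) (Fin s) ∧ Disjoint G₁ G₂ ∧
      NoIsolated G₁ ∧ NoIsolated G₂ ∧ 8 * s < gammaT G₁ * gammaT G₂ := by
  intro s hs
  have hp : 2 ≤ s / 2 := by omega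
  have hps : s / 2 + 2 ≤ s := by omega
  refine ⟨bip (R1 s (s / 2)), bip (R2 s (s / 2)), ?_, ?_, noIso1 hp hps, noIso2 hp hps, ?_⟩
  · ext x y
    rcases x with a | b <;> rcases y with a' | b' <;>
      simp only [SimpleGraph.sup_adj, completeBipartiteGraph_adj, bip]
    · simp
    · simp [R1_or_R2]
    · simp [R1_or_R2]
    · simp
  · rw [disjoint_iff]
    ext x y
    rcases x with a | b <;> rcases y with a' | b' <;>
      simp only [SimpleGraph.inf_adj, SimpleGraph.bot_adj, bip]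
    · simp
    · simp only [iff_false, not_and]
      exact R1_not_R2 s (s / 2) (by omega) a b'
    · simp only [iff_false, not_and]
      exact R1_not_R2 s (s / 2) (by omega) a' b
    · simp
  · have h1 := gamma1 hp hps
    have h2 := gamma2 hp hps
    have h3 : ((s - s / 2) + 2) * (s / 2 + 2) ≤
        gammaT (bip (R1 s (s / 2))) * gammaT (bip (R2 s (s / 2))) := Nat.mul_le_mul h1 h2
    refine lt_of_lt_of_le ?_ h3
    obtain ⟨m, hm | hm⟩ := Nat.even_or_odd' s
    · subst hm
      have e1 : 2 * m / 2 = m := by omega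
      rw [e1]
      have e2 : 2 * m - m = m := by omega
      rw [e2]
      nlinarith
    · subst hm
      have e1 : (2 * m + 1) / 2 = m := by omega
      rw [e1]
      have e2 : 2 * m + 1 - m = m + 1 := by omega
      rw [e2]
      nlinarith

end Pool.Agent.Results.MP_69ced1_co.LargeProduct
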